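import Pool.Agent.Lib.CS.Main

/-!
Local uniformization (semistable charts, with monomialization of finite sets) of algebraic models along
valuations of arbitrary rank of a function field `L` over an algebraically closed valued field `k` of residue
characteristic `p`: all valuations composed of a rank one valuation of transcendence defect at most one and
finitely many valuations of rank one which are discrete or of transcendence defect at most one.
-/

namespace Pool.Agent.Lib.MP_1a953e_ag.Old.AdicPoints

open IsLocalRing MP1a953e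

set_option linter.unusedSectionVars false

/-- The semistable model ring `R [X 0, …, X r] / (X 0 * ⋯ * X r - ϖ)`. -/
abbrev SemistableRing {R : Type*} [CommRing R] (r : ℕ) (ϖ : R) : Type _ :=
  MvPolynomial (Fin (r + 1)) R ⧸
    Ideal.span {(∏ i, MvPolynomial.X i - MvPolynomial.C ϖ : MvPolynomial (Fin (r + 1)) R)}

/-- The `R`-algebra `B` is smooth over the semistable model ring
`R [X 0, …, X r] / (X 0 * ⋯ * X r - ϖ)`, by a homomorphism which maps the class of the coordinate
`X i` to `t i`. -/
def IsSemistableOver {R B : Type*} [CommRing R] [CommRing B] [Algebra R B] {r : ℕ} (ϖ : R)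
    (t : Fin (r + 1) → B) : Prop :=
  ∃ φ : SemistableRing r ϖ →ₐ[R] B, φ.toRingHom.Smooth ∧
    ∀ i, φ (Ideal.Quotient.mk _ (MvPolynomial.X i)) = t i

section
variable {R L : Type*} [CommRing R] [Field L] [Algebra R L]

/-- The chart `A[f i / f 0]` of the blow-up of the ideal `(f 0, …, f n)` of `A`. -/
noncomputable def blowupChart (A : Subalgebra R L) {n : ℕ} (f : Fin (n + 1) → L) :
    Subalgebra R L :=
  A ⊔ Algebra.adjoin R (Set.range fun i => f i / f 0)

/-- `f 0, …, f n` are elements of `A`, `f 0 ≠ 0`, and one of them is a nonzero constant of `R`: the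
blow-up of the ideal `(f 0, …, f n)` of `A` is admissible. -/
def IsAdmissible (A : Subalgebra R L) {n : ℕ} (f : Fin (n + 1) → L) : Prop :=
  (∀ i, f i ∈ A) ∧ f 0 ≠ 0 ∧ ∃ i, ∃ c : R, c ≠ 0 ∧ f i = algebraMap R L c

/-- `x` is a nonzero constant of `k` times a Laurent monomial in the `t i` times a unit of `B`. -/
def IsMonomialUpToUnit (k : Type*) [Field k] [Algebra k L] (B : Subalgebra R L) {r : ℕ}
    (t : Fin (r + 1) → B) (x : L) : Prop :=
  ∃ (z : Fin (r + 1) → ℤ) (c : k) (v : L), c ≠ 0 ∧ v ∈ B ∧ v⁻¹ ∈ B ∧
    x = algebraMap k L c * (∏ i, (t i : L) ^ z i) * v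

end

/-- The values of the nonzero elements `e i` of `L` form a basis of the group `(|L*| / |k*|) ⊗ ℚ`:
they are independent modulo `|k*|`, and a power of every value is in the group generated by them and
`|k*|`. -/
def IsValueBasis (k : Type*) {L : Type*} [NormedField k] [NormedField L] {r : ℕ}
    (e : Fin r → L) : Prop :=
  (∀ i, e i ≠ 0) ∧ (∀ (z : Fin r → ℤ) (c : k), ‖c‖ = ‖∏ i, e i ^ z i‖ → z = 0) ∧
    ∀ x : L, x ≠ 0 → ∃ n : ℕ, 0 < n ∧ ∃ (z : Fin r → ℤ) (c : k),
      ‖x‖ ^ n = ‖c‖ * ‖∏ i, e i ^ z i‖

/-- The unit ball `{x | ‖x‖ ≤ 1}` of `L`, as a valuation ring. -/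
def unitBall (L : Type) [NormedField L] [IsUltrametricDist L] : ValuationSubring L where
  carrier := {x | ‖x‖ ≤ 1}
  mul_mem' := fun {a b} ha hb => by
    show ‖a * b‖ ≤ 1
    rw [norm_mul]
    exact mul_le_one₀ ha (norm_nonneg _) hb
  one_mem' := by
    show ‖(1 : L)‖ ≤ 1
    rw [norm_one]
  add_mem' := fun {a b} ha hb => by
    show ‖a + b‖ ≤ 1
    exact (IsUltrametricDist.norm_add_le_max a b).trans (max_le ha hb)
  zero_mem' := by
    show ‖(0 : L)‖ ≤ 1
    rw [norm_zero]
    exact zero_le_one
  neg_mem' := fun {a} ha => by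
    show ‖-a‖ ≤ 1
    rw [norm_neg]
    exact ha
  mem_or_inv_mem' x := by
    show ‖x‖ ≤ 1 ∨ ‖x⁻¹‖ ≤ 1
    rw [norm_inv]
    rcases le_total ‖x‖ 1 with h | h
    · exact Or.inl h
    · exact Or.inr (inv_le_one_of_one_le₀ h)

/-- The step from `V1` to `V ≤ V1` is discrete: the valuation ring `W` which `V` induces on the residue
field of `V1` is discrete of rank one (the values in the value group of `V` of the units of `V1` form
an infinite cyclic group). -/
def IsDiscreteStep {K : Type} [Field K] (V1 V : ValuationSubring K) : Prop :=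
  ∃ π : K, V1.valuation π = 1 ∧ V.valuation π < 1 ∧
    ∀ z : K, V1.valuation z = 1 → ∃ n : ℤ, V.valuation z = V.valuation (π ^ n)

/-- The step from `V1` to `V ≤ V1` has rank one and rational rank `r ≥ 1`: the value group of `W` is
archimedean, it contains `r` rationally independent elements, but no `r + 1` such elements. -/
def IsRankOneStep {K : Type} [Field K] (V1 V : ValuationSubring K) (r : ℕ) : Prop :=
  0 < r ∧
  (∀ a b : K, V1.valuation a = 1 → V1.valuation b = 1 → V.valuation b < 1 →
    ∃ n : ℕ, V.valuation (b ^ n) ≤ V.valuation a) ∧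
  (∃ x : Fin r → K, (∀ i, V1.valuation (x i) = 1) ∧
    ∀ m : Fin r → ℤ, V.valuation (∏ i, x i ^ m i) = 1 → m = 0) ∧
  ∀ z : Fin (r + 1) → K, (∀ i, V1.valuation (z i) = 1) →
    ∃ m : Fin (r + 1) → ℤ, m ≠ 0 ∧ V.valuation (∏ i, z i ^ m i) = 1

section
variable (k : Type) {L : Type} [NormedField k] [IsUltrametricDist k] [NormedField L]
  [IsUltrametricDist L] [NormedAlgebra k L]

/-- The residues of the `y j` in the residue field of `V` are algebraically independent over the residue
field of `k`: a polynomial over `k` with coefficients of absolute value at most one, not all of them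
smaller than one, takes at `y` a value which is a unit of `V`. -/
def ResiduesIndependent (V : ValuationSubring L) {m : ℕ} (y : Fin m → L) : Prop :=
  ∀ P : MvPolynomial (Fin m) k, (∀ s, ‖P.coeff s‖ ≤ 1) → (∃ s, ‖P.coeff s‖ = 1) →
    V.valuation (MvPolynomial.aeval y P) = 1

/-- The transcendence degree of the residue field of `V` over the residue field of `k` is `s`. -/
def ResidueTrdeg (V : ValuationSubring L) (s : ℕ) : Prop :=
  (∃ y : Fin s → L, (∀ i, y i ∈ V) ∧ ResiduesIndependent k V y) ∧
    ∀ y : Fin (s + 1) → L, (∀ i, y i ∈ V) → ¬ ResiduesIndependent k V y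

/-- `V` is composed of the unit ball of `L` and finitely many valuations of rank one, each of them discrete
or of transcendence defect at most one: there is a chain of valuation rings
`V 0 ⊇ V 1 ⊇ ... ⊇ V n = V`, `V 0` the unit ball, such that the valuation ring `W` induced by
`V (i + 1)` on the residue field `κ` of `V i` has rank one and is either discrete, or the transcendence
degree of `κ` over the residue field of `k` is at most `r + s + 1`, where `r` is the rational rank of
`W` and `s` is the transcendence degree of the residue field of `W`. The integer `r` in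
`IsComposite k V r` is the sum of the rational ranks. -/
inductive IsComposite : ValuationSubring L → ℕ → Prop
  | base : IsComposite (unitBall L) 0
  | discrete (V1 V : ValuationSubring L) (r : ℕ) :
      IsComposite V1 r → V ≤ V1 → IsDiscreteStep V1 V → IsComposite V (r + 1)
  | defect (V1 V : ValuationSubring L) (r1 r s t : ℕ) :
      IsComposite V1 r1 → V ≤ V1 → IsRankOneStep V1 V r → ResidueTrdeg k V s →
      ResidueTrdeg k V1 t → t ≤ r + s + 1 → IsComposite V (r1 + r)

variable {k}

theorem IsComposite.toVComp {V : ValuationSubring L} {r : ℕ} (h : IsComposite k V r) :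
    CS.VComp k V r := by
  induction h with
  | base => exact CS.VComp.base
  | discrete V1 V r _ hle h2 ih => exact CS.VComp.discrete V1 V r ih hle h2
  | defect V1 V r1 r s t _ hle h2 hs ht hst ih =>
    exact CS.VComp.defect V1 V r1 r s t ih hle ⟨h2.2.1, h2.1, h2.2.2.1, h2.2.2.2⟩ hs ht hst

end

/-- Let `k` be an algebraically closed field with a nontrivial nonarchimedean absolute value with
`‖p‖ < 1` for a prime `p` (residue characteristic `p`; `k` has characteristic `0` or `p`), `L/k` a
finitely generated field extension with an absolute value extending the one of `k`. Let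
`e 0, …, e (r-1)` be elements of `L` whose values form a basis of the group `(|L*| / |k*|) ⊗ ℚ`, let
`m` be the transcendence degree of the residue field of `L` over the residue field of `k`, and
assume that the transcendence defect `δ` is at most one: `L/k` has transcendence degree `r + m + δ`.
Let `V` be a valuation ring of `L` which contains the valuation ring of `k` and is composed of the unit ball
of `L` and of finitely many valuations of rank one which are discrete or of transcendence defect at
most one (`IsComposite`), of total rational rank `s`. Let `A` be a finitely generated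
`O k`-subalgebra of `V` with fraction field `L`, and `S` a finite set of nonzero elements of `L`. Then
there are `f 0, …, f n` in `A`, `f 0 ≠ 0`, one of which is a nonzero constant of `O k`, such that the
chart `B = A[f i / f 0]` is contained in `V`, and `B` is smooth over a semistable model ring
`O k [X 0, …, X (r + s)] / (X 0 * ⋯ * X (r + s) - ϖ)`, `ϖ ≠ 0`, `‖ϖ‖ < 1`, such that the images `t i`
of the coordinates `X i` are in the maximal ideal of `V`, and each element of `S` is a nonzero
constant of `k` times a Laurent monomial in the `t i` times a unit of `B`. -/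
theorem result {p : ℕ} [Fact p.Prime] {k L : Type} [NontriviallyNormedField k]
    [IsUltrametricDist k] [IsAlgClosed k] (hp : ‖(p : k)‖ < 1) [NormedField L]
    [IsUltrametricDist L] [NormedAlgebra k L] (hfg : (⊤ : IntermediateField k L).FG) {r m δ : ℕ}
    (e : Fin r → L) (he : IsValueBasis k e)
    (hres : Algebra.trdeg (ResidueField (O k)) (ResidueField (O L)) = (m : Cardinal))
    (hδ : δ ≤ 1) (htr : Algebra.trdeg k L = ((r + m + δ : ℕ) : Cardinal))
    (V : ValuationSubring L) (hk : ∀ c : k, ‖c‖ ≤ 1 → algebraMap k L c ∈ V) {s : ℕ}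
    (hV : IsComposite k V s)
    (A : Subalgebra (O k) L) (hA : A.FG) (hAV : ∀ a ∈ A, a ∈ V) (hAf : IsFractionRing A L)
    (S : Finset L) (hS : ∀ x ∈ S, x ≠ 0) :
    ∃ (n : ℕ) (f : Fin (n + 1) → L), IsAdmissible A f ∧ (∀ b ∈ blowupChart A f, b ∈ V) ∧
      ∃ (ϖ : O k) (t : Fin (r + s + 1) → blowupChart A f), ϖ ≠ 0 ∧ ‖(ϖ : k)‖ < 1 ∧
        IsSemistableOver ϖ t ∧ (∀ i, V.valuation (t i : L) < 1) ∧
        ∀ x ∈ S, IsMonomialUpToUnit k (blowupChart A f) t x := by
  obtain ⟨n, f, h1, h2, h3, h4, ϖ, h5, h6, φ, h7, h8, h9⟩ :=
    CS.main (p := p) hp hfg e he.1 he.2.1 he.2.2 hres hδ htr hV.toVComp hk A hA hAV S hS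
  exact ⟨n, f, ⟨h1, h2, h3⟩, h4, ϖ, fun i => φ (DA.SSr.x i), h5, h6, ⟨φ, h7, fun i => rfl⟩, h8, h9⟩

end Pool.Agent.Lib.MP_1a953e_ag.Old.AdicPoints
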