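import Pool.Agent.Lib.MP_1a953e_ag.Main2

/-!
Local uniformization of rank one points of transcendence defect one, residue characteristic `p`,
algebraically closed ground field of characteristic `0` or `p`.
-/

namespace Pool.Agent.Results.MP_1a953e_ag.DefectOne

open IsLocalRing MP1a953e

universe v

/-- Let `k` be an algebraically closed field with a nontrivial nonarchimedean absolute value with
`‖p‖ < 1` for a prime `p` (residue characteristic `p`; `k` has characteristic `0` or `p`), `L/k` a
finitely generated field extension with an absolute value extending the one of `k`, with the same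
value group, whose residue field is finitely generated of transcendence degree `m` over the residue
field of `k`, where `m + 1` is the transcendence degree of `L/k`. Let `A` be a finitely generated
`O k`-subalgebra of the valuation ring of `L` with fraction field `L`. Then there are `f 0, ..., f n` in
`A`, one of which is a nonzero constant of `O k`, such that `A[f i / f 0]` (a chart of an admissible
blow-up of `A`) is contained in the valuation ring of `L` and is smooth over `O k`. -/
theorem result {p : ℕ} [Fact p.Prime] {k L : Type v} [NontriviallyNormedField k]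
    [IsUltrametricDist k] [IsAlgClosed k] (hp : ‖(p : k)‖ < 1) [NormedField L]
    [IsUltrametricDist L] [NormedAlgebra k L] (hfg : (⊤ : IntermediateField k L).FG)
    (hval : ∀ x : L, ∃ c : k, ‖c‖ = ‖x‖) {m : ℕ} (htr : Algebra.trdeg k L = m + 1)
    (hres : Algebra.trdeg (ResidueField (O k)) (ResidueField (O L)) = m)
    (hess : Algebra.EssFiniteType (ResidueField (O k)) (ResidueField (O L)))
    (A : Subalgebra (O k) L) (hA : A.FG) (hA1 : ∀ a ∈ A, ‖a‖ ≤ 1) (hAf : IsFractionRing A L) :
    ∃ (n : ℕ) (f : Fin (n + 1) → L), (∀ i, f i ∈ A) ∧ f 0 ≠ 0 ∧
      (∃ i, ∃ c : O k, c ≠ 0 ∧ f i = algebraMap (O k) L c) ∧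
      (∀ b ∈ A ⊔ Algebra.adjoin (O k) (Set.range fun i => f i / f 0), ‖b‖ ≤ 1) ∧
      Algebra.Smooth (O k) ↥(A ⊔ Algebra.adjoin (O k) (Set.range fun i => f i / f 0)) :=
  (main2 (p := p) hp hfg hval htr hres hess).2 A hA hA1 hAf

end Pool.Agent.Results.MP_1a953e_ag.DefectOne
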