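import Pool.Agent.Lib.MP_1a953e_ag.Main2

/-!
Henselian rationality of rank one points of transcendence defect one, residue characteristic `p`,
algebraically closed ground field of characteristic `0` or `p`.
-/

namespace Pool.Agent.Results.MP_1a953e_ag.DenseRational

open IsLocalRing MP1a953e

universe v

/-- Let `k` be an algebraically closed field with a nontrivial nonarchimedean absolute value with
`‖p‖ < 1` for a prime `p` (residue characteristic `p`; `k` has characteristic `0` or `p`), `L/k` a
finitely generated field extension with an absolute value extending the one of `k`, with the same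
value group, whose residue field is finitely generated of transcendence degree `m` over the residue
field of `k`, where `m + 1` is the transcendence degree of `L/k`. Then some purely transcendental
extension `k(y 0, ..., y m)` of `k` in `L` is dense in `L`. -/
theorem result {p : ℕ} [Fact p.Prime] {k L : Type v} [NontriviallyNormedField k]
    [IsUltrametricDist k] [IsAlgClosed k] (hp : ‖(p : k)‖ < 1) [NormedField L]
    [IsUltrametricDist L] [NormedAlgebra k L] (hfg : (⊤ : IntermediateField k L).FG)
    (hval : ∀ x : L, ∃ c : k, ‖c‖ = ‖x‖) {m : ℕ} (htr : Algebra.trdeg k L = m + 1)
    (hres : Algebra.trdeg (ResidueField (O k)) (ResidueField (O L)) = m)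
    (hess : Algebra.EssFiniteType (ResidueField (O k)) (ResidueField (O L))) :
    ∃ y : Fin (m + 1) → L, AlgebraicIndependent k y ∧
      ∀ x : L, ∀ ε : ℝ, 0 < ε → ∃ z ∈ IntermediateField.adjoin k (Set.range y), ‖x - z‖ < ε :=
  (main2 (p := p) hp hfg hval htr hres hess).1

end Pool.Agent.Results.MP_1a953e_ag.DenseRational
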