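import Pool.Agent.Lib.DS.Fin

/-!
Local uniformization (with monomialization of finite sets) of models of smooth varieties of any
dimension at all points of the analytic space whose residue field has transcendence defect one;
residue characteristic `p`, algebraically closed ground field of characteristic `0` or `p`:
semistable charts of admissible blow-ups.
-/

namespace Pool.Agent.Lib.MP_1a953e_ag.Old.RigSmoothCharts

open IsLocalRing MP1a953e

universe v

/-- The semistable model ring `R [X 0, …, X r] / (X 0 * ⋯ * X r - ϖ)`. -/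
abbrev SemistableRing {R : Type*} [CommRing R] (r : ℕ) (ϖ : R) : Type _ :=
  MvPolynomial (Fin (r + 1)) R ⧸
    Ideal.span {(∏ i, MvPolynomial.X i - MvPolynomial.C ϖ : MvPolynomial (Fin (r + 1)) R)}

/-- The `R`-algebra `B` is smooth over the semistable model ring
`R [X 0, …, X r] / (X 0 * ⋯ * X r - ϖ)`, by a homomorphism which maps the class of the coordinate
`X i` to `t i`. -/
def IsSemistableOver {R B : Type*} [CommRing R] [CommRing B] [Algebra R B] {r : ℕ} (ϖ : R)
    (t : Fin (r + 1) → B) : Prop :=
  ∃ φ : SemistableRing r ϖ →ₐ[R] B, φ.toRingHom.Smooth ∧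
    ∀ i, φ (Ideal.Quotient.mk _ (MvPolynomial.X i)) = t i

section
variable {R S : Type*} (T : Type*) [CommRing R] [CommRing S] [CommRing T] [Algebra R S]
  [Algebra R T] [Algebra S T]

/-- The chart `A[f i / f 0]` of the blow-up of the ideal `(f 0, …, f n)` of `A`, as a subalgebra of
the `S`-algebra `T` (where `T` is a localization of the domain `S ⊇ A` in which `f 0` is a unit). -/
noncomputable def blowupChart (A : Subalgebra R S) {n : ℕ} (f : Fin (n + 1) → S) :
    Subalgebra R T :=
  Algebra.adjoin R {x | (∃ a ∈ A, algebraMap S T a = x) ∨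
    ∃ i, algebraMap S T (f 0) * x = algebraMap S T (f i)}

variable {T}

/-- `x` is a nonzero constant of `k` times a quotient of monomials in the `t i` times a unit of
`B`. -/
def IsMonomialUpToUnit (k : Type*) [Field k] [Algebra k T] (B : Subalgebra R T) {r : ℕ}
    (t : Fin (r + 1) → B) (x : T) : Prop :=
  ∃ (n m : Fin (r + 1) → ℕ) (c : k) (v : Bˣ), c ≠ 0 ∧
    x * ∏ i, (t i : T) ^ n i = algebraMap k T c * (∏ i, (t i : T) ^ m i) * (v : B)

end

/-- The values of the nonzero elements `e i` of `L` form a basis of the group `(|L*| / |k*|) ⊗ ℚ`: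
they are independent modulo `|k*|`, and a power of every value is in the group generated by them and
`|k*|`. -/
def IsValueBasis (k : Type*) {L : Type*} [NormedField k] [NormedField L] {r : ℕ}
    (e : Fin r → L) : Prop :=
  (∀ i, e i ≠ 0) ∧ (∀ (z : Fin r → ℤ) (c : k), ‖c‖ = ‖∏ i, e i ^ z i‖ → z = 0) ∧
    ∀ x : L, x ≠ 0 → ∃ n : ℕ, 0 < n ∧ ∃ (z : Fin r → ℤ) (c : k),
      ‖x‖ ^ n = ‖c‖ * ‖∏ i, e i ^ z i‖

/-- Let `k` be an algebraically closed field with a nontrivial nonarchimedean absolute value with
`‖p‖ < 1` for a prime `p` (residue characteristic `p`; `k` has characteristic `0` or `p`). Let `S`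
be a domain over `k`, `A` a finitely generated `O k`-subalgebra of `S` with `k A = S` (a model of
the affine variety `Spec S`), `P` a prime ideal of `S`, `T` the local ring of `S` at `P`, smooth
over `k`, and `L` the residue field of `T`, with an absolute value which extends the one of `k` and
is `≤ 1` on the image of `A` (`P` and the absolute value are a point of the analytic space of
`Spec S`, in the domain given by the model). Let `e 0, …, e (r-1)` be elements of `L` whose values
form a basis of the group `(|L*| / |k*|) ⊗ ℚ`, let `m` be the transcendence degree of the residue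
field of `O L` over the residue field of `k`, and assume that the transcendence defect is one:
`L/k` has transcendence degree `r + m + 1`. Let `E` be a finite subset of `S ∖ P`. Then there are
`f 0, …, f n` in `A`, `f 0 ∉ P`, one of which is a nonzero constant of `O k`, such that the residues
of the elements of the chart `B = A[f i / f 0] ⊆ T` have absolute value at most one, and `B` is
smooth over a semistable model ring `O k [X 0, …, X r] / (X 0 * ⋯ * X r - ϖ)`, `ϖ ≠ 0`, `‖ϖ‖ < 1`,
such that the residues of the images `t i` of the coordinates `X i` have absolute value less than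
`1`, and each element of `E` is a nonzero constant of `k` times a quotient of monomials in the `t i`
times a unit of `B`. -/
theorem result {p : ℕ} [Fact p.Prime] {k S T L : Type v} [NontriviallyNormedField k]
    [IsUltrametricDist k] [IsAlgClosed k] (hp : ‖(p : k)‖ < 1) [CommRing S] [IsDomain S]
    [Algebra k S] (P : Ideal S) [P.IsPrime] [CommRing T] [Algebra k T] [Algebra S T]
    [IsScalarTower k S T] [IsLocalization.AtPrime T P] [Algebra.FormallySmooth k T]
    [NormedField L] [IsUltrametricDist L] [NormedAlgebra k L] [Algebra T L] [IsScalarTower k T L]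
    (hL : Function.Surjective (algebraMap T L)) {r m : ℕ} (e : Fin r → L) (he : IsValueBasis k e)
    (hres : Algebra.trdeg (ResidueField (O k)) (ResidueField (O L)) = m)
    (htr : Algebra.trdeg k L = r + m + 1) (A : Subalgebra (O k) S) (hA : A.FG)
    (hAS : ∀ x : S, ∃ c : k, c ≠ 0 ∧ c • x ∈ A)
    (hA1 : ∀ a ∈ A, ‖algebraMap T L (algebraMap S T a)‖ ≤ 1) (E : Finset S)
    (hE : ∀ x ∈ E, x ∉ P) :
    ∃ (n : ℕ) (f : Fin (n + 1) → S), (∀ i, f i ∈ A) ∧ f 0 ∉ P ∧
      (∃ i, ∃ c : O k, c ≠ 0 ∧ f i = algebraMap (O k) S c) ∧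
      (∀ b ∈ blowupChart T A f, ‖algebraMap T L b‖ ≤ 1) ∧
      ∃ (ϖ : O k) (t : Fin (r + 1) → blowupChart T A f), ϖ ≠ 0 ∧ ‖(ϖ : k)‖ < 1 ∧
        IsSemistableOver ϖ t ∧ (∀ i, ‖algebraMap T L (t i)‖ < 1) ∧
        ∀ x ∈ E, IsMonomialUpToUnit k (blowupChart T A f) t (algebraMap S T x) := by
  have hft := DS.finiteType_of_model hA fun x => by
    obtain ⟨c, hc, h⟩ := hAS x
    exact ⟨c, hc, by rwa [← Algebra.smul_def]⟩
  obtain ⟨n, f, hf, hf0, hfc, hV, ϖ, hϖ, hϖ1, φ, hφ, hφV, hφE⟩ := DS.charts_at' P hL A hA hAS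
    (DS.charts_one hp (DS.fg_residue P hL) e he.1 he.2.1 he.2.2 hres htr fun x => DS.mem_nball)
    DS.pt_nball (fun a ha => DS.mem_nball.2 (hA1 a ha)) E hE
  refine ⟨n, f, hf, hf0, hfc, fun b hb => DS.mem_nball.1 (hV b hb), ϖ, fun i => φ (DS.SS.x i), hϖ,
    hϖ1, ⟨φ.comp (DS.SS.equiv r ϖ).toAlgHom, hφ, fun i => rfl⟩, fun i => DS.nball_lt.1 (hφV i),
    fun x hx => ?_⟩
  obtain ⟨n, m, c, v, v', hc, hv, hv', hvv, hrel⟩ := hφE x hx
  exact ⟨n, m, c, ⟨⟨v, hv⟩, ⟨v', hv'⟩, Subtype.ext hvv, Subtype.ext ((mul_comm _ _).trans hvv)⟩, hc,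
    hrel⟩

end Pool.Agent.Lib.MP_1a953e_ag.Old.RigSmoothCharts
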