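import Pool.Agent.Lib.DA.M3

/-!
Local uniformization (with monomialization of finite sets) of all rank one points of transcendence
defect one, residue characteristic `p`, algebraically closed ground field of characteristic `0` or
`p`: semistable charts of admissible blow-ups.
-/

namespace Pool.Agent.Lib.MP_1a953e_ag.Old.SemistableCharts

open IsLocalRing MP1a953e

universe v

/-- The semistable model ring `R [X 0, …, X r] / (X 0 * ⋯ * X r - ϖ)`. -/
abbrev SemistableRing {R : Type*} [CommRing R] (r : ℕ) (ϖ : R) : Type _ :=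
  MvPolynomial (Fin (r + 1)) R ⧸
    Ideal.span {(∏ i, MvPolynomial.X i - MvPolynomial.C ϖ : MvPolynomial (Fin (r + 1)) R)}

/-- The `R`-algebra `B` is smooth over the semistable model ring
`R [X 0, …, X r] / (X 0 * ⋯ * X r - ϖ)`, by a homomorphism which maps the class of the coordinate
`X i` to `t i`. -/
def IsSemistableOver {R B : Type*} [CommRing R] [CommRing B] [Algebra R B] {r : ℕ} (ϖ : R)
    (t : Fin (r + 1) → B) : Prop :=
  ∃ φ : SemistableRing r ϖ →ₐ[R] B, φ.toRingHom.Smooth ∧
    ∀ i, φ (Ideal.Quotient.mk _ (MvPolynomial.X i)) = t i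

section
variable {R L : Type*} [CommRing R] [Field L] [Algebra R L]

/-- The chart `A[f i / f 0]` of the blow-up of the ideal `(f 0, …, f n)` of `A`. -/
noncomputable def blowupChart (A : Subalgebra R L) {n : ℕ} (f : Fin (n + 1) → L) :
    Subalgebra R L :=
  A ⊔ Algebra.adjoin R (Set.range fun i => f i / f 0)

/-- `f 0, …, f n` are elements of `A`, `f 0 ≠ 0`, and one of them is a nonzero constant of `R`: the
blow-up of the ideal `(f 0, …, f n)` of `A` is admissible. -/
def IsAdmissible (A : Subalgebra R L) {n : ℕ} (f : Fin (n + 1) → L) : Prop :=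
  (∀ i, f i ∈ A) ∧ f 0 ≠ 0 ∧ ∃ i, ∃ c : R, c ≠ 0 ∧ f i = algebraMap R L c

/-- `x` is a nonzero constant of `k` times a Laurent monomial in the `t i` times a unit of `B`. -/
def IsMonomialUpToUnit (k : Type*) [Field k] [Algebra k L] (B : Subalgebra R L) {r : ℕ}
    (t : Fin (r + 1) → B) (x : L) : Prop :=
  ∃ (z : Fin (r + 1) → ℤ) (c : k) (v : L), c ≠ 0 ∧ v ∈ B ∧ v⁻¹ ∈ B ∧
    x = algebraMap k L c * (∏ i, (t i : L) ^ z i) * v

end

/-- The values of the nonzero elements `e i` of `L` form a basis of the group `(|L*| / |k*|) ⊗ ℚ`: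
they are independent modulo `|k*|`, and a power of every value is in the group generated by them and
`|k*|`. -/
def IsValueBasis (k : Type*) {L : Type*} [NormedField k] [NormedField L] {r : ℕ}
    (e : Fin r → L) : Prop :=
  (∀ i, e i ≠ 0) ∧ (∀ (z : Fin r → ℤ) (c : k), ‖c‖ = ‖∏ i, e i ^ z i‖ → z = 0) ∧
    ∀ x : L, x ≠ 0 → ∃ n : ℕ, 0 < n ∧ ∃ (z : Fin r → ℤ) (c : k),
      ‖x‖ ^ n = ‖c‖ * ‖∏ i, e i ^ z i‖

/-- Let `k` be an algebraically closed field with a nontrivial nonarchimedean absolute value with
`‖p‖ < 1` for a prime `p` (residue characteristic `p`; `k` has characteristic `0` or `p`), `L/k` a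
finitely generated field extension with an absolute value extending the one of `k`. Let
`e 0, …, e (r-1)` be elements of `L` whose values form a basis of the group `(|L*| / |k*|) ⊗ ℚ`, let
`m` be the transcendence degree of the residue field of `L` over the residue field of `k`, and
assume that the transcendence defect is one: `L/k` has transcendence degree `r + m + 1`. Let `A` be
a finitely generated `O k`-subalgebra of the valuation ring of `L` with fraction field `L`, and `S`
a finite set of nonzero elements of `L`. Then there are `f 0, …, f n` in `A`, `f 0 ≠ 0`, one of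
which is a nonzero constant of `O k`, such that the chart `B = A[f i / f 0]` is contained in the
valuation ring of `L`, and `B` is smooth over a semistable model ring
`O k [X 0, …, X r] / (X 0 * ⋯ * X r - ϖ)`, `ϖ ≠ 0`, `‖ϖ‖ < 1`, such that the images `t i` of the
coordinates `X i` have absolute value less than `1`, and each element of `S` is a nonzero constant
of `k` times a Laurent monomial in the `t i` times a unit of `B`. -/
theorem result {p : ℕ} [Fact p.Prime] {k L : Type v} [NontriviallyNormedField k]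
    [IsUltrametricDist k] [IsAlgClosed k] (hp : ‖(p : k)‖ < 1) [NormedField L]
    [IsUltrametricDist L] [NormedAlgebra k L] (hfg : (⊤ : IntermediateField k L).FG) {r m : ℕ}
    (e : Fin r → L) (he : IsValueBasis k e)
    (hres : Algebra.trdeg (ResidueField (O k)) (ResidueField (O L)) = m)
    (htr : Algebra.trdeg k L = r + m + 1)
    (A : Subalgebra (O k) L) (hA : A.FG) (hA1 : ∀ a ∈ A, ‖a‖ ≤ 1) (hAf : IsFractionRing A L)
    (S : Finset L) (hS : ∀ x ∈ S, x ≠ 0) :
    ∃ (n : ℕ) (f : Fin (n + 1) → L), IsAdmissible A f ∧ (∀ b ∈ blowupChart A f, ‖b‖ ≤ 1) ∧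
      ∃ (ϖ : O k) (t : Fin (r + 1) → blowupChart A f), ϖ ≠ 0 ∧ ‖(ϖ : k)‖ < 1 ∧
        IsSemistableOver ϖ t ∧ (∀ i, ‖(t i : L)‖ < 1) ∧
        ∀ x ∈ S, IsMonomialUpToUnit k (blowupChart A f) t x := by
  obtain ⟨n, f, h1, h2, h3, h4, ϖ, h5, h6, φ, h7, h8, h9⟩ :=
    (DA.main3 (p := p) hp hfg e he.1 he.2.1 he.2.2 hres htr).2 A hA hA1 hAf S hS
  exact ⟨n, f, ⟨h1, h2, h3⟩, h4, ϖ, fun i => φ (DA.SSr.x i), h5, h6, ⟨φ, h7, fun i => rfl⟩, h8, h9⟩

end Pool.Agent.Lib.MP_1a953e_ag.Old.SemistableCharts
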