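import Pool.Agent.Lib.TI.TN

/-!
Totally immediate points (rank one points of transcendence defect two) of algebraic surfaces over a
complete algebraically closed ground field of residue characteristic `p`: a dense rational subfield
with separable cofield, and local uniformization by smooth charts of admissible blow-ups.
-/

namespace Pool.Agent.Lib.MP_1a953e_ag.Old.TotallyImmediateSurfaces

open MP1a953e

universe v

/-- Let `k` be a complete algebraically closed field with a nontrivial nonarchimedean absolute value
with `‖p‖ < 1` for a prime `p` (`k` has characteristic `0` or `p`), `L/k` a finitely generated field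
extension of transcendence degree two with an absolute value extending the one of `k` which is totally
immediate: for every `x ≠ 0` in `L` there is `c` in `k` with `‖x - c‖ < ‖x‖` (no new values, no
residue field extension). Then (1) there are algebraically independent `y, z` in `L` of norm `≤ 1` such
that `L` is finite separable over `k(y, z)` and `k(y, z)` is dense in `L`; (2) if `A` is a finitely
generated `O k`-subalgebra of the valuation ring of `L` with fraction field `L`, there are
`f 0, ..., f n` in `A`, one of which is a nonzero constant of `O k`, such that `A[f i / f 0]` (a chart of an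
admissible blow-up of `A`) is contained in the valuation ring of `L` and is smooth over `O k`. -/
theorem result {p : ℕ} [Fact p.Prime] {k L : Type v} [NontriviallyNormedField k] [CompleteSpace k]
    [IsUltrametricDist k] [IsAlgClosed k] (hp : ‖(p : k)‖ < 1) [NormedField L]
    [IsUltrametricDist L] [NormedAlgebra k L]
    (himm : ∀ x : L, x ≠ 0 → ∃ c : k, ‖x - algebraMap k L c‖ < ‖x‖)
    (hfg : (⊤ : IntermediateField k L).FG) (htr : Algebra.trdeg k L = 2) :
    (∃ y z : L, ‖y‖ ≤ 1 ∧ ‖z‖ ≤ 1 ∧ AlgebraicIndependent k ![y, z] ∧
      FiniteDimensional (IntermediateField.adjoin k ({y, z} : Set L)) L ∧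
      Algebra.IsSeparable (IntermediateField.adjoin k ({y, z} : Set L)) L ∧
      ∀ x : L, ∀ ε : ℝ, 0 < ε →
        ∃ w ∈ IntermediateField.adjoin k ({y, z} : Set L), ‖x - w‖ < ε) ∧
    ∀ A : Subalgebra (O k) L, A.FG → (∀ a ∈ A, ‖a‖ ≤ 1) → IsFractionRing A L →
      ∃ (n : ℕ) (f : Fin (n + 1) → L), (∀ i, f i ∈ A) ∧ f 0 ≠ 0 ∧
        (∃ i, ∃ c : O k, c ≠ 0 ∧ f i = algebraMap (O k) L c) ∧
        (∀ b ∈ A ⊔ Algebra.adjoin (O k) (Set.range fun i => f i / f 0), ‖b‖ ≤ 1) ∧
        Algebra.Smooth (O k) ↥(A ⊔ Algebra.adjoin (O k) (Set.range fun i => f i / f 0)) :=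
  ⟨TI.rational_main hp himm hfg htr, TI.unif_main hp himm hfg htr⟩

end Pool.Agent.Lib.MP_1a953e_ag.Old.TotallyImmediateSurfaces
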